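import Pool.Agent.U253.GAP.Fin

/-!
# `n = 2`: one nontempered place keeps the Hecke eigenvalues away from the zeros of every polynomial of degree `≤ 8`

Let `π` be a unitary cuspidal automorphic representation of `GL_2` over `ℚ`, with an ARBITRARY central character `ω`,
`π_∞` the principal series of `|·|^r sgn^e`, `|·|^{-r} sgn^f` (Laplace eigenvalue `1/4 - r²` for Maass forms), `S` a
finite set of primes which contains the ramified ones, `α_p, β_p` the Satake parameters, `w_p² = α_p β_p = ω(p)` and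
`α_p + β_p = w_p y_p`. The unitarity of `π_p` says that `|w_p| = 1` and `y_p` is real. For a spherical cusp form `φ` on
`PGL_2` one has `S = ∅`, `w_p = 1` and `y_p` is the Hecke eigenvalue.

**Theorem.** Assume that the L-functions `L_S(s, π, Sym^k ⊗ det^l)`, `k ≤ K`, have a meromorphic continuation which is
a quotient of entire functions of order at most `3/2` and have the expected functional equations. Let `P ≠ 0` be ANY real
polynomial of degree `d ≤ K`; if `ω` is not trivial, let `P` be even or odd. If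

  `∑_{p < X} |P(y_p)| log p = o(√X)`

then `r = 0` and at EVERY `p ∉ S` one has `|α_p| = |β_p| = 1`, `α_p^n = β_p^n` for some `1 ≤ n ≤ 2 d - 1`, and `P(y_p) = 0`,
more generally `P(w_p^{-n} (α_p^n + β_p^n)) = 0` for all `n ≥ 1`.

So if `π` is nontempered at a SINGLE place outside `S`, finite or infinite, or has a single Satake parameter
`α_p/β_p` of infinite order, or an eigenvalue `≠ 1/4`, then for every `P` of degree `≤ K` there is a constant `c > 0` with
`∑_{p < X} |P(y_p)| log p ≥ c √X` for arbitrarily large `X`. For `K = 8` the assumptions are theorems (Rankin-Selberg products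
of `Sym^k π ⊗ χ`, `k ≤ 4`; Gelbart-Jacquet, Kim-Shahidi, Kim); `K = 9` is the Langlands-Shahidi method. No bound
towards the Ramanujan conjecture is used, in the hypothesis `y_p` may be unbounded.

The starting results (`N210.FV`, `N845.SP`, `MP_eea520_nt.AllSymmetricPowers`) treat EXACT relations at ALL primes outside
a finite set, for trivial central character and with Satake parameters bounded by a constant. New here: the
relation only holds on average, up to `o(√X)`, so an infinite set of `o(√X / log X)` primes may be ignored completely if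
the eigenvalues are bounded there, and the other ones may converge to the zeros of `P`; the Satake parameters
are not assumed to be bounded; the L-functions are not self-dual.

Idea. The coefficients `G(p^k)` of the real combination of logarithmic derivatives are split into a part which is
bounded by `M ρ^k` and has no first powers, and a small part (`Pool.Agent.U253.GAP.Sm`): all first powers, and all
powers at the primes with `|y_p| ≥ B`, where the Satake parameters of `Sym^k`, `k ≤ d`, are bounded by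
`κ |P(y_p)| = o(√p)`. The series over the small part converges absolutely for `Re s > 1/2` and is `o(1/δ)` at
`Re s = 1/2 + δ`, so it has no influence on the residues on the line `Re s = 1/2`, which are square summable; the
limit formula for the frequencies `k log p` (`N210.FV`) then kills every coefficient. At infinity a relation
between the weights `r (k - 2 i)` remains, which is impossible for `r ≠ 0`.
-/

set_option autoImplicit false

open Filter Topology Asymptotics

namespace Pool.Agent.Results.MP_fa98d2_nt.PolynomialGap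

/-- `∏_{m ∈ μ} Γ_ℝ(s + m)⁻¹`, `Γ_ℝ(s) = π^{-s/2} Γ(s/2)` -/
noncomputable def invGamma (μ : List ℂ) (s : ℂ) : ℂ := (μ.map fun m => (Complex.Gammaℝ (s + m))⁻¹).prod

/-- `∏_{(p, b) ∈ l} (1 - b p^{-s})` -/
noncomputable def finEuler (l : List (ℕ × ℂ)) (s : ℂ) : ℂ :=
  (l.map fun x => 1 - x.2 * (x.1 : ℂ) ^ (-s)).prod

/-- the eigenvalues `α_p^{k-i} β_p^i (α_p β_p)^l`, `0 ≤ i ≤ k`, of `(Sym^k ⊗ det^l)(A_p)` -/
noncomputable def eigenvalue (α β : ℕ → ℂ) (k : ℕ) (l : ℤ) (p i : ℕ) : ℂ :=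
  α p ^ (k - i) * β p ^ i * (α p * β p) ^ l

/-- the archimedean parameters of `Sym^k ⊗ det^l`: the gamma factor is `∏_{0 ≤ i ≤ k} Γ_ℝ(s + r (k - 2 i) + δ_i)`
with `δ_i ∈ {0, 1}` the residue of `(k - i + l) e + (i + l) f` modulo `2` -/
noncomputable def archimedean (r : ℂ) (e f : ℤ) (k : ℕ) (l : ℤ) : List ℂ :=
  (List.range (k + 1)).map fun i : ℕ => r * ((k : ℂ) - 2 * i) +
    (((((k : ℤ) - i + l) * e + (i + l) * f) % 2 : ℤ) : ℂ)

/-- the Euler product `∏_{p ∉ S} F p s` extends to the meromorphic function `N/D` on `ℂ` -/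
structure Continuation (S : Finset ℕ) (F : ℕ → ℂ → ℂ) (N D : ℂ → ℂ) : Prop where
  /-- `N` is entire -/
  entire_N : Differentiable ℂ N
  /-- `D` is entire -/
  entire_D : Differentiable ℂ D
  /-- `N` and `D` are of order at most `3/2` -/
  order : ∃ C : ℝ, ∀ s, ‖N s‖ ≤ Real.exp (C * (1 + ‖s‖) ^ (3 / 2 : ℝ)) ∧
    ‖D s‖ ≤ Real.exp (C * (1 + ‖s‖) ^ (3 / 2 : ℝ))
  /-- `D` has no zeros in `Re s > 1` -/
  ne_zero : ∀ s : ℂ, 1 < s.re → D s ≠ 0
  /-- the partial Euler products converge to `N/D` in `Re s > 1` -/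
  euler : ∀ s : ℂ, 1 < s.re → Tendsto (fun X : ℕ =>
    ∏ p ∈ (Finset.range X).filter (fun p => p.Prime ∧ p ∉ S), F p s) atTop (𝓝 (N s / D s))

/-- the functional equation between `N/D`, with the archimedean parameters `μ`, and the L-function `N'/D'` of the
dual representation, with the archimedean parameters `μ'`: with
`Λ(s) = q^s · (invGamma μ s · finEuler m s)⁻¹ · finEuler l' s · N s / D s` and
`Λ'(s) = q^s · (invGamma μ' s · finEuler l s)⁻¹ · finEuler m' s · N' s / D' s` it says `Λ(s) = ε Λ'(1 - s)` -/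
def FunctionalEquation (S : Finset ℕ) (μ μ' : List ℂ) (N D N' D' : ℂ → ℂ) : Prop :=
  ∃ (l l' m m' : List (ℕ × ℂ)) (q : ℝ) (ε : ℂ), 0 < q ∧ ε ≠ 0 ∧
    (∀ x ∈ l, x.1.Prime ∧ x.1 ∈ S) ∧ (∀ x ∈ l', x.1.Prime ∧ x.1 ∈ S) ∧
    (∀ x ∈ m, x.1.Prime ∧ x.1 ∈ S) ∧ (∀ x ∈ m', x.1.Prime ∧ x.1 ∈ S) ∧
    ∀ s, (q : ℂ) ^ s * invGamma μ' (1 - s) * finEuler l (1 - s) * finEuler l' s * (N s * D' (1 - s)) =
      ε * (q : ℂ) ^ (1 - s) * invGamma μ s * finEuler m s * finEuler m' (1 - s) * (N' (1 - s) * D s)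

/-- the properties of `π` which are used -/
structure Automorphic (S : Finset ℕ) (α β w : ℕ → ℂ) (y : ℕ → ℝ) (r : ℂ) (e f : ℤ) (K : ℕ) : Prop where
  /-- `α_p`, `β_p` are the Satake parameters of a unitary representation: `α_p β_p = w_p²`, `|w_p| = 1`, and
  `α_p + β_p = w_p y_p` with `y_p` real -/
  satake : ∀ p : ℕ, p.Prime → p ∉ S → α p * β p = w p ^ 2 ∧ α p + β p = w p * (y p : ℂ) ∧ ‖w p‖ = 1
  /-- `L_S(s, π, Sym^k ⊗ det^l)`, `k ≤ K`, continues and has the expected functional equation, which relates it to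
  the dual representation `Sym^k ⊗ det^{-k-l}` -/
  nice : ∃ N D : ℕ → ℤ → ℂ → ℂ, ∀ k ≤ K, ∀ l : ℤ,
    Continuation S (fun p s => ∏ i ∈ Finset.range (k + 1),
      (1 - eigenvalue α β k l p i * (p : ℂ) ^ (-s))⁻¹) (N k l) (D k l) ∧
    FunctionalEquation S (archimedean r e f k l) (archimedean r e f k (-k - l)) (N k l) (D k l)
      (N k (-k - l)) (D k (-k - l))

/-- **One polynomial of degree at most `K` which is small on average at the normalised Hecke eigenvalues forces
temperedness at every place outside `S`.** -/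
theorem result {S : Finset ℕ} {α β w : ℕ → ℂ} {y : ℕ → ℝ} {r : ℂ} {e f : ℤ} {K : ℕ}
    (hπ : Automorphic S α β w y r e f K) {P : Polynomial ℝ} (hP : P ≠ 0) (hK : P.natDegree ≤ K)
    (hpar : (∀ k : ℕ, P.coeff k ≠ 0 → k % 2 = P.natDegree % 2) ∨
      ∀ p : ℕ, p.Prime → p ∉ S → w p = 1)
    (h : (fun X : ℕ => ∑ p ∈ (Finset.range X).filter (fun p => p.Prime ∧ p ∉ S),
      |P.eval (y p)| * Real.log p) =o[atTop] fun X : ℕ => √(X : ℝ)) :
    r = 0 ∧ ∀ p : ℕ, p.Prime → p ∉ S → ‖α p‖ = 1 ∧ ‖β p‖ = 1 ∧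
      (∃ n : ℕ, 0 < n ∧ n ≤ 2 * P.natDegree - 1 ∧ α p ^ n = β p ^ n) ∧ P.eval (y p) = 0 ∧
      ∀ n : ℕ, 1 ≤ n → ∃ t : ℝ, α p ^ n + β p ^ n = w p ^ n * (t : ℂ) ∧ P.eval t = 0 := by
  obtain ⟨hsat, N, D, hND⟩ := hπ
  set x : ℕ → ℂ := fun p => α p / w p with hx
  have hw0 : ∀ p : ℕ, p.Prime → p ∉ S → w p ≠ 0 := by
    intro p hp hpS h0
    have h1 := (hsat p hp hpS).2.2
    rw [h0, norm_zero] at h1
    norm_num at h1
  have hα0 : ∀ p : ℕ, p.Prime → p ∉ S → α p ≠ 0 := by
    intro p hp hpS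
    have h1 : α p * β p ≠ 0 := by
      rw [(hsat p hp hpS).1]
      exact pow_ne_zero _ (hw0 p hp hpS)
    exact left_ne_zero_of_mul h1
  have hx0 : ∀ p : ℕ, p.Prime → p ∉ S → x p ≠ 0 := fun p hp hpS =>
    div_ne_zero (hα0 p hp hpS) (hw0 p hp hpS)
  have ha : ∀ p : ℕ, p.Prime → p ∉ S → α p = w p * x p := by
    intro p hp hpS
    simp only [hx]
    rw [mul_div_cancel₀ _ (hw0 p hp hpS)]
  have hb : ∀ p : ℕ, p.Prime → p ∉ S → β p = w p * (x p)⁻¹ := by
    intro p hp hpS
    have h1 := (hsat p hp hpS).1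
    have h2 := hα0 p hp hpS
    simp only [hx]
    rw [inv_div, ← mul_div_assoc, eq_div_iff h2]
    linear_combination h1
  have hy : ∀ p : ℕ, p.Prime → p ∉ S → x p + (x p)⁻¹ = (y p : ℂ) := by
    intro p hp hpS
    refine mul_left_cancel₀ (hw0 p hp hpS) ?_
    rw [← (hsat p hp hpS).2.1, mul_add, ← ha p hp hpS, ← hb p hp hpS]
  have hpk : ∀ p : ℕ, p.Prime → p ∉ S → ∀ (k : ℕ) (l : ℤ), ∀ i < k + 1,
      eigenvalue α β k l p i = Pool.Agent.U253.EEA.wx w x k l p i := fun p hp hpS k l i hi =>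
    Pool.Agent.U253.GAP.pk_wx (hw0 p hp hpS) (hx0 p hp hpS) (ha p hp hpS) (hb p hp hpS) (by omega) l
  obtain ⟨h1, h2⟩ := Pool.Agent.U253.GAP.gap (S := S) (w := w) (x := x) (y := y) (r := r) (e := e)
    (f := f) (N := N) (D := D) hP hpar (fun p hp hpS => (hsat p hp hpS).2.2) hx0 hy
    (fun k hk l => by
      obtain ⟨⟨a1, a2, a3, a4, a5⟩, -⟩ := hND k (hk.trans hK) l
      have h3 : Pool.Agent.U253.EEA.Half S (k + 1) (eigenvalue α β k l) (N k l) (D k l) :=
        ⟨a1, a2, a3, a4, a5⟩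
      exact h3.congr fun p hp hpS i hi => hpk p hp hpS k l i hi)
    (fun k hk l => (hND k (hk.trans hK) l).2) h
  refine ⟨h1, fun p hp hpS => ?_⟩
  obtain ⟨h3, h4, h5⟩ := h2 p hp hpS
  have hxn : ‖x p‖ = 1 :=
    Complex.norm_eq_one_of_pow_eq_one (pow_orderOf_eq_one (x p)) h3.ne'
  have hwn := (hsat p hp hpS).2.2
  have hpn : ∀ n : ℕ, α p ^ n + β p ^ n = w p ^ n * (x p ^ n + (x p ^ n)⁻¹) := by
    intro n
    rw [ha p hp hpS, hb p hp hpS, mul_pow, mul_pow, inv_pow]
    ring
  refine ⟨by rw [ha p hp hpS, norm_mul, hwn, hxn, one_mul],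
    by rw [hb p hp hpS, norm_mul, norm_inv, hwn, hxn, inv_one, one_mul],
    ⟨orderOf (x p), h3, h4, ?_⟩, h5 1 le_rfl (y p) (by simpa using hy p hp hpS), fun n hn => ?_⟩
  · rw [ha p hp hpS, hb p hp hpS, mul_pow, mul_pow, inv_pow, pow_orderOf_eq_one, inv_one]
  · obtain ⟨t, ht⟩ := Pool.Agent.N845.SP.tr_real (hx0 p hp hpS) (hy p hp hpS) n
    exact ⟨t, by rw [hpn n, ht], h5 n hn t ht⟩

end Pool.Agent.Results.MP_fa98d2_nt.PolynomialGap
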