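import Pool.Agent.U985.UT.Fin2

/-!
# Spherical cusp forms on `PGL_n`: the proportion of the primes with a small Hecke eigenvalue, uniformly in the form

Let `n ≥ 2` and let `φ` be a spherical cusp form on `PGL_n` over `ℚ`, with Satake parameters `α_{i,p}`, Langlands
parameters `μ_i` at the real place and Hecke eigenvalues `λ(p) = ∑_i α_{i,p}`. Let
`C(φ) = ∏_{i,j} (1 + |μ_i - μ_j|)`, the size of the analytic conductor of `L(s, π × π~)`. We show, for all `M ≥ 1` and
`ε > 0`, with a constant `A` which depends only on `n`, `M` and `ε` and **not on the form**, that for all `P ≥ 1`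

  `∑_{p ≤ P} max(0, M² - |λ(p)|²) (log p) / p ≥ (M² - 1) log P - 1/2 log C(φ) - ε log (P C(φ)) - A`.

In particular:

* `∑ (log p) / p` over the primes `p ≤ P` with `|λ(p)| < M` is at least
  `(1 - 1/M²) log P - (1 / (2 M²)) log C(φ) - ε log (P C(φ)) - A`: in the logarithmic sense at least the proportion
  `1 - 1/M²` of the primes has `|λ(p)| < M`, and this begins to be felt as soon as `P ≥ C(φ)^{1 / (2 (M² - 1))}`; for
  `M = n` these are the primes at which the eigenvalue satisfies the bound implied by the Ramanujan conjecture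
  (strictly), and for `n = 2` the component `π_p` is tempered at these primes;
* for `n = 3` and `X > 1` the same holds for the primes `p ≤ P` with `1/X < |α_{i,p}| < X` for all `i`, with
  `M = X + 1/X - 1`.

For a fixed form these are the asymptotic densities which follow from `∑_{p ≤ P} |λ(p)|² (log p) / p ~ log P`; the point
is the uniformity in the form, with the explicit term `1/2 log C(φ)`: for example, for `P = C(φ)^κ` with fixed `κ` the
asymptotic formula is not known. The other uniform results of this run (`LeastSmallTrace`) concern a single prime power.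

The structure `SphericalCuspForm` lists what is used of `φ`: the local components are unitary; the Rankin-Selberg
series converges absolutely for `Re s > 1`; `L(s, π × π~)` is entire except for a simple pole at `s = 1`, of polynomial
growth in vertical strips, and it satisfies the functional equation (Jacquet, Piatetski-Shapiro, Shalika; Moeglin,
Waldspurger). The bounds `|α_{i,p}| < p^{1/2}`, `|Re μ_i| < 1/2` are those of Jacquet and Shalika.

The proof. Let `L(s, π × π~) = ∑ c_m m^{-s}`, `c_m ≥ 0`, and `S(y) = ∑ c_m m^{-1} K(y - log m)` with a Gaussian `K`. Moving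
the line of integration, `S(y) = R + O(C(φ)^{1/2 + ε} e^{-y})` for `y ≥ 0`, where `R` is the residue up to a constant. Marking
one of the prime factors of `m` gives `∑_p |λ(p)|² (log p) p^{-1} S(y - log p) ≤ y S(y) + 3 S(y + 1)`. If `R ≥ P^{-ε'}` this
with `y = (1/2 + ε) log C(φ) + log P` gives `∑_{p ≤ P} |λ(p)|² (log p) / p ≤ log P + 1/2 log C(φ) + ...`. If `R` is smaller,
then products of many primes from a short interval show that `∑ |λ(p)|² (log p) / p` is small over every short
interval of the logarithmic scale. The lower bound for `∑_{p ≤ P} M² (log p) / p` is Mertens' theorem.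
-/

set_option autoImplicit false

namespace Pool.Agent.Results.MP_fa98d2_nt.RamanujanProportion

open Pool.Agent.TH949.RES (SphericalCuspForm)

/-- the Satake parameters and the Langlands parameters of a spherical cusp form on `PGL_n`, with the bounds of Jacquet
and Shalika -/
def IsForm {n : ℕ} (α : Nat.Primes → Fin n → ℂ) (μ : Fin n → ℂ) : Prop :=
  SphericalCuspForm α μ ∧ (∀ (p : Nat.Primes) i, ‖α p i‖ < ((p : ℕ) : ℝ) ^ (1 / 2 : ℝ)) ∧ ∀ i, |(μ i).re| < 1 / 2

/-- `C(φ) = ∏_{i,j} (1 + |μ_i - μ_j|)` -/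
noncomputable def cond {n : ℕ} (μ : Fin n → ℂ) : ℝ := ∏ i, ∏ j, (1 + ‖μ i - μ j‖)

open scoped Classical in
/-- `∑_{p ≤ P} w(p) (log p) / p` (a finite sum) -/
noncomputable def mass (P : ℝ) (w : Nat.Primes → ℝ) : ℝ :=
  ∑' p : Nat.Primes, if ((p : ℕ) : ℝ) ≤ P then w p * (Real.log ((p : ℕ) : ℝ) / ((p : ℕ) : ℝ)) else 0

open scoped Classical in
/-- `1` if `E` holds, otherwise `0` -/
noncomputable def ind (E : Prop) : ℝ := if E then 1 else 0

theorem mass_eq (P : ℝ) (w : Nat.Primes → ℝ) :
    mass P w = ∑ p ∈ Pool.Agent.U985.UT.pf P, w p * (Real.log ((p : ℕ) : ℝ) / ((p : ℕ) : ℝ)) := by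
  classical
  unfold mass
  rw [tsum_eq_sum (s := Pool.Agent.U985.UT.pf P) (fun p hp => if_neg fun h => hp (Pool.Agent.U985.UT.mem_pf.2 h))]
  exact Finset.sum_congr rfl fun p hp => if_pos (Pool.Agent.U985.UT.mem_pf.1 hp)

theorem mass_ind (P : ℝ) (E : Nat.Primes → Prop) [DecidablePred E] :
    mass P (fun p => ind (E p)) =
      ∑ p ∈ (Pool.Agent.U985.UT.pf P).filter E, Real.log ((p : ℕ) : ℝ) / ((p : ℕ) : ℝ) := by
  classical
  rw [mass_eq, Finset.sum_filter]
  refine Finset.sum_congr rfl fun p _ => ?_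
  by_cases h : E p
  · rw [if_pos h, show ind (E p) = 1 from if_pos h, one_mul]
  · rw [if_neg h, show ind (E p) = 0 from if_neg h, zero_mul]

/-- **The proportion of the primes with a small Hecke eigenvalue, uniformly in the form.** -/
theorem result {n : ℕ} (hn : 2 ≤ n) :
    (∀ M ε : ℝ, 1 ≤ M → 0 < ε → ∃ A : ℝ, 0 < A ∧
      ∀ (α : Nat.Primes → Fin n → ℂ) (μ : Fin n → ℂ), IsForm α μ → ∀ P : ℝ, 1 ≤ P →
        (M ^ 2 - 1) * Real.log P - 1 / 2 * Real.log (cond μ) - ε * Real.log (P * cond μ) - A ≤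
          mass P (fun p => max 0 (M ^ 2 - ‖∑ i, α p i‖ ^ 2)) ∧
        (1 - 1 / M ^ 2) * Real.log P - 1 / (2 * M ^ 2) * Real.log (cond μ) - ε * Real.log (P * cond μ) - A ≤
          mass P (fun p => ind (‖∑ i, α p i‖ < M ∧ (n = 2 → M ≤ 2 → ∀ i, ‖α p i‖ = 1)))) ∧
    (n = 3 → ∀ X ε : ℝ, 1 < X → 0 < ε → ∃ A : ℝ, 0 < A ∧
      ∀ (α : Nat.Primes → Fin n → ℂ) (μ : Fin n → ℂ), IsForm α μ → ∀ P : ℝ, 1 ≤ P →
        (1 - 1 / (X + 1 / X - 1) ^ 2) * Real.log P - 1 / (2 * (X + 1 / X - 1) ^ 2) * Real.log (cond μ) -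
          ε * Real.log (P * cond μ) - A ≤
          mass P (fun p => ind (∀ i, 1 / X < ‖α p i‖ ∧ ‖α p i‖ < X))) := by
  classical
  constructor
  · intro M ε hM hε
    obtain ⟨A₁, hA1, h1⟩ := Pool.Agent.U985.UT.main hn hM hε
    obtain ⟨A₂, hA2, h2⟩ := Pool.Agent.U985.UT.mass hn hM hε
    refine ⟨A₁ + A₂, by positivity, fun α μ hf P hP => ⟨?_, ?_⟩⟩
    · rw [mass_eq]
      have := h1 α μ hf.1 hf.2.1 hf.2.2 P hP
      unfold cond
      linarith
    · rw [mass_ind P fun p => ‖∑ i, α p i‖ < M ∧ (n = 2 → M ≤ 2 → ∀ i, ‖α p i‖ = 1)]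
      have := h2 α μ hf.1 hf.2.1 hf.2.2 P hP ((Pool.Agent.U985.UT.pf P).filter fun p =>
        ‖∑ i, α p i‖ < M ∧ (n = 2 → M ≤ 2 → ∀ i, ‖α p i‖ = 1)) (fun p hp hs => by
        refine Finset.mem_filter.2 ⟨Pool.Agent.U985.UT.mem_pf.2 hp, hs, fun h3 h4 => ?_⟩
        subst h3
        exact Pool.Agent.U985.UT.two_tempered' (hf.1.ne_zero p) (hf.1.unitary p) (hs.trans_le h4))
      unfold cond
      linarith
  · rintro rfl X ε hX hε
    obtain ⟨A, hA, h⟩ := Pool.Agent.U985.UT.three_mass hX hε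
    refine ⟨A, hA, fun α μ hf P hP => ?_⟩
    rw [mass_ind P fun p => ∀ i, 1 / X < ‖α p i‖ ∧ ‖α p i‖ < X]
    exact h α μ hf.1 hf.2.1 hf.2.2 P hP _ fun p hp hs =>
      Finset.mem_filter.2 ⟨Pool.Agent.U985.UT.mem_pf.2 hp, hs⟩

end Pool.Agent.Results.MP_fa98d2_nt.RamanujanProportion
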