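import Pool.Agent.U985.UT.Fin2

/-!
# Spherical cusp forms on `PGL_n`: the Ramanujan bound for the Hecke eigenvalue holds at many small primes

Let `n ≥ 2` and let `φ` be a spherical cusp form on `PGL_n` over `ℚ`, with Satake parameters `α_{i,p}`, Langlands
parameters `μ_i` at the real place and Hecke eigenvalues `λ(p) = ∑_i α_{i,p}`. Let
`C(φ) = ∏_{i,j} (1 + |μ_i - μ_j|)`, the size of the analytic conductor of `L(s, π × π~)`. If `π_p` is tempered then
`|λ(p)| ≤ n`, and for `n = 2` the inequality `|λ(p)| < 2` implies that `π_p` is tempered. We show, with constants `A`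
and `δ > 0` which depend only on `n` and `M` and **not on the form**:

* for every `M ≥ 16/9` and all `P ≥ A C(φ)^{1 / (4 M (M - 1))}` there are at least `P^δ` primes `p ≤ P` with
  `|λ(p)| < M`;
* in particular (`M = n`): if `1 + |μ_i - μ_j| ≤ T` for all `i, j`, then **for all `P ≥ A T^{1/4}` the bound
  `|λ(p)| < n` holds for at least `P^δ` primes `p ≤ P`**; for `n = 2` these components are tempered, so that the least
  tempered prime is `≪ T^{1/4}`;
* for `n = 3`: for all `P ≥ A T²` there are at least `P^δ` primes `p ≤ P` with `1/2 < |α_{i,p}| < 2` for all `i`;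
* for every `M > 1` the same as in the first point with any exponent
  `c > x / (4 (M² ∫_0^x exp(-t²/2) dt - √(π/2)))`, where `x > 0` is such that the denominator is positive; for `M = 2`
  and `x = 11/10` this is `c = 0.1148` (so `T^{0.2296}` for `n = 2`), and `c ~ 1 / (4 M²)` for large `M`.

Known before: `LeastSmallTrace` of this run gives a prime **power** `p^k ≤ A C(φ)^{1+ε}` with `|∑_i α_{i,p}^k| < 1`;
for `n = 2` Luo and Zhou (On the Hecke eigenvalues of Maass forms) have a tempered prime `≪ T^{0.27332}`. For fixed `φ`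
one has `∑_{p ≤ P} |λ(p)|² log p / p ~ log P`, but this says nothing about primes which are small compared to `C(φ)`.

The structure `SphericalCuspForm` lists what is used of `φ`: the local components are unitary; the Rankin-Selberg
series converges absolutely for `Re s > 1`; `L(s, π × π~)` is entire except for a simple pole at `s = 1`, of polynomial
growth in vertical strips, and it satisfies the functional equation (Jacquet, Piatetski-Shapiro, Shalika; Moeglin,
Waldspurger). The bounds `|α_{i,p}| < p^{1/2}`, `|Re μ_i| < 1/2` are those of Jacquet and Shalika.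

The proof. Let `F(s) = (s - 1) L(s, π × π~)`. For `Re s₀ = 1 + δ` the function
`F(s) / (conj F(2 + 2 δ - conj s))` is holomorphic in `-σ ≤ Re s ≤ 1 + δ`, of absolute value `1` on the right edge, and by the
functional equation `≪ C(φ)^{1/2 + ε}` on the left edge, if multiplied by `exp((s - s₀)²)`. The three lines theorem gives
`Re (-L'/L)(s₀, π × π~) ≤ Re 1/(s₀ - 1) + (1/4 + ε) log C(φ) + O(1 + log (1 + |Im s₀|))`, uniformly as `δ → 0`. Integrated
against a Gaussian this is, for all `s ≥ 1`,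
`∑_p |λ(p)|² (log p / p) exp(-(log p)² / 2 s²) ≤ √(π/2) s + (1/4 + ε) log C(φ) + O(1)`. On the other hand the sum without
`|λ(p)|²` over `p ≤ P` is `∫_0^{log P} exp(-t² / 2 s²) dt + O(1)` by Mertens' theorem. Now choose `s = (log P) / x`.
-/

set_option autoImplicit false

namespace Pool.Agent.Results.MP_fa98d2_nt.RamanujanSmallPrimes

open Pool.Agent.TH949.RES (SphericalCuspForm)

/-- the Satake parameters and the Langlands parameters of a spherical cusp form on `PGL_n`, with the bounds of Jacquet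
and Shalika -/
def IsForm {n : ℕ} (α : Nat.Primes → Fin n → ℂ) (μ : Fin n → ℂ) : Prop :=
  SphericalCuspForm α μ ∧ (∀ (p : Nat.Primes) i, ‖α p i‖ < ((p : ℕ) : ℝ) ^ (1 / 2 : ℝ)) ∧ ∀ i, |(μ i).re| < 1 / 2

/-- `C(φ) = ∏_{i,j} (1 + |μ_i - μ_j|)` -/
noncomputable def cond {n : ℕ} (μ : Fin n → ℂ) : ℝ := ∏ i, ∏ j, (1 + ‖μ i - μ j‖)

/-- the number of the primes `p ≤ P` with the property `E` -/
noncomputable def count (P : ℝ) (E : Nat.Primes → Prop) : ℕ := {p : Nat.Primes | ((p : ℕ) : ℝ) ≤ P ∧ E p}.ncard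

/-- `∫_0^x exp(-t²/2) dt` -/
noncomputable def gauss (x : ℝ) : ℝ := ∫ t in (0 : ℝ)..x, Real.exp (-t ^ 2 / 2)

/-- for all spherical cusp forms `φ` and all `P ≥ A C(φ)^c` there are at least `P^δ` primes `p ≤ P` with
`|λ(p)| < M` -/
def Many (n : ℕ) (M c : ℝ) : Prop := ∃ A δ : ℝ, 0 < A ∧ 0 < δ ∧
  ∀ (α : Nat.Primes → Fin n → ℂ) (μ : Fin n → ℂ), IsForm α μ → ∀ P : ℝ, A * cond μ ^ c ≤ P →
    P ^ δ ≤ (count P fun p => ‖∑ i, α p i‖ < M : ℕ)

/-- **Many small primes at which the Hecke eigenvalue satisfies the Ramanujan bound.** -/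
theorem result {n : ℕ} (hn : 2 ≤ n) :
    (∀ M : ℝ, 16 / 9 ≤ M → Many n M (1 / (4 * M * (M - 1)))) ∧
    (∃ A δ : ℝ, 0 < A ∧ 0 < δ ∧ ∀ (α : Nat.Primes → Fin n → ℂ) (μ : Fin n → ℂ), IsForm α μ →
      ∀ T : ℝ, (∀ i j, 1 + ‖μ i - μ j‖ ≤ T) → ∀ P : ℝ, A * T ^ (1 / 4 : ℝ) ≤ P →
        P ^ δ ≤ (count P fun p => ‖∑ i, α p i‖ < n ∧ (n = 2 → ∀ i, ‖α p i‖ = 1) : ℕ)) ∧
    (n = 3 → ∃ A δ : ℝ, 0 < A ∧ 0 < δ ∧ ∀ (α : Nat.Primes → Fin n → ℂ) (μ : Fin n → ℂ), IsForm α μ →
      ∀ T : ℝ, (∀ i j, 1 + ‖μ i - μ j‖ ≤ T) → ∀ P : ℝ, A * T ^ (2 : ℝ) ≤ P →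
        P ^ δ ≤ (count P fun p => ∀ i, 1 / 2 < ‖α p i‖ ∧ ‖α p i‖ < 2 : ℕ)) ∧
    ∀ M x c : ℝ, 0 < M → 0 < x → √(Real.pi / 2) < M ^ 2 * gauss x →
      x / (4 * (M ^ 2 * gauss x - √(Real.pi / 2))) < c → Many n M c := by
  have key : ∀ M x c : ℝ, 0 < M → 0 < x → √(Real.pi / 2) < M ^ 2 * gauss x →
      x / (4 * (M ^ 2 * gauss x - √(Real.pi / 2))) < c → Many n M c := by
    intro M x c hM hx hD hc
    obtain ⟨A, δ, hA, hδ, h⟩ := Pool.Agent.U985.UT.cnt_many hn hM hx (sub_pos.2 hD) hc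
    exact ⟨A, δ, hA, hδ, fun α μ hf P hP => h α μ hf.1 hf.2.1 hf.2.2 P hP⟩
  have key2 : ∀ M : ℝ, 16 / 9 ≤ M → Many n M (1 / (4 * M * (M - 1))) := by
    intro M hM
    obtain ⟨x, hx, hD, hc⟩ := Pool.Agent.U985.UT.expo hM
    exact key M x _ (by linarith) hx (sub_pos.1 hD) hc
  have hn' : (2 : ℝ) ≤ n := by exact_mod_cast hn
  refine ⟨key2, ?_, ?_, key⟩
  · obtain ⟨A, δ, hA, hδ, h⟩ := key2 n (by linarith)
    refine ⟨A, δ, hA, hδ, fun α μ hf T hT P hP => ?_⟩
    have h4 : 0 < (n : ℝ) - 1 := by linarith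
    have h1 : cond μ ^ (1 / (4 * (n : ℝ) * ((n : ℝ) - 1))) ≤ T ^ (1 / 4 : ℝ) := by
      have h2 := Pool.Agent.U985.UT.prod_T hn hT (c := 1 / (4 * (n : ℝ) * ((n : ℝ) - 1))) (by positivity)
      have h3 : (n : ℝ) * ((n : ℝ) - 1) * (1 / (4 * (n : ℝ) * ((n : ℝ) - 1))) = 1 / 4 := by
        have : (n : ℝ) ≠ 0 := by linarith
        field_simp
      rwa [h3] at h2
    refine (h α μ hf P ((mul_le_mul_of_nonneg_left h1 hA.le).trans hP)).trans ?_
    refine Nat.cast_le.2 (Pool.Agent.U985.UT.cnt_mono fun p hp => ⟨hp, fun h2 => ?_⟩)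
    subst h2
    refine Pool.Agent.U985.UT.two_tempered' (hf.1.ne_zero p) (hf.1.unitary p) (lt_of_lt_of_eq hp ?_)
    norm_num
  · rintro rfl
    have hκ1 := Pool.Agent.U985.UT.sqrt_pi_half
    have hII : 1.0457 ≤ gauss (7 / 5) := by
      refine le_trans ?_ (Pool.Agent.U985.UT.II_ge (by norm_num))
      norm_num
    have hD1 : 1.0994 ≤ (3 / 2 : ℝ) ^ 2 * gauss (7 / 5) - √(Real.pi / 2) := by
      norm_num at hII hκ1 ⊢
      linarith
    have hD0 : √(Real.pi / 2) < (3 / 2 : ℝ) ^ 2 * gauss (7 / 5) := by linarith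
    obtain ⟨A, δ, hA, hδ, h⟩ := key (3 / 2) (7 / 5) (1 / 3) (by norm_num) (by norm_num) hD0 (by
      rw [div_lt_div_iff₀ (by linarith) (by norm_num)]
      norm_num at hD1 ⊢
      linarith)
    refine ⟨A, δ, hA, hδ, fun α μ hf T hT P hP => ?_⟩
    have h1 : cond μ ^ (1 / 3 : ℝ) ≤ T ^ (2 : ℝ) := by
      have h2 := Pool.Agent.U985.UT.prod_T (n := 3) (by norm_num) hT (c := 1 / 3) (by norm_num)
      have h3 : ((3 : ℕ) : ℝ) * (((3 : ℕ) : ℝ) - 1) * (1 / 3) = 2 := by norm_num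
      rwa [h3] at h2
    refine (h α μ hf P ((mul_le_mul_of_nonneg_left h1 hA.le).trans hP)).trans ?_
    refine Nat.cast_le.2 (Pool.Agent.U985.UT.cnt_mono fun p hp => ?_)
    exact Pool.Agent.U985.UT.three_near (hf.1.ne_zero p) (hf.1.unitary p) (by norm_num)
      (lt_of_lt_of_eq hp (by norm_num))

end Pool.Agent.Results.MP_fa98d2_nt.RamanujanSmallPrimes
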