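import Pool.Agent.U985.UT.Fin3

/-!
# Maass forms of level one: many tempered primes below `t^{0.2195}`, and nine tenths of all primes, uniformly

Let `φ` be a spherical cusp form on `PGL_2` over `ℚ` with representation `π`, that is, a Maass form of level one, with
Satake parameters `α_{0,p}, α_{1,p}`, `α_{0,p} α_{1,p} = 1`, and Langlands parameters `μ_0 = - μ_1` at the real place
(`μ_0 = i t`, with Laplace eigenvalue `1/4 + t²`), and let `T = 1 + |μ_0 - μ_1|`. We show, with constants `A` and `δ > 0`
which do **not depend on the form**: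

* for all `P ≥ A T^{0.2195}` there are at least `P^δ` primes `p ≤ P` such that `π_p` is tempered; in particular the least
  tempered prime is `≪ T^{0.2195}`;
* for all `ε > 0` and all `P ≥ 1` the sum of `(log p) / p` over the primes `p ≤ P` such that `π_p` is tempered is at least
  `(9/10) log P - (33/100) log T - ε log (P T) - A(ε)`.

Known before: a tempered prime `≪ T^{0.27332}` (Luo and Zhou, On the Hecke eigenvalues of Maass forms, also for level
`N`), and, for a fixed form, the density `9/10` from the symmetric square (Ramakrishnan) and `34/35` from the first four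
symmetric powers (Kim and Shahidi); `RamanujanSmallPrimes` of this run, for all `n`, gives the exponent `0.2296` for
`n = 2` without the symmetric square.

The structure `MaassForm` lists what is used: `π` and its symmetric square (cuspidal, Gelbart and Jacquet) have the
properties in the structure `SphericalCuspForm` of the former results on this problem: the local components are
unitary; the Rankin-Selberg series converges absolutely for `Re s > 1`; `L(s, π × π~)` is entire except for a simple
pole at `s = 1`, of polynomial growth in vertical strips, and it satisfies the functional equation (Jacquet,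
Piatetski-Shapiro, Shalika; Moeglin, Waldspurger); and the bounds of Jacquet and Shalika for the symmetric square,
`|α_{i,p}| < p^{1/4}`, `|Re μ_i| < 1/4` (known with `7/64`, Kim and Sarnak).

The proof. By the three lines theorem for the quotient of `(s - 1) L(s, π × π~)` by its reflection in `Re s = 1 + δ`, one
has, for all `s ≥ 1`, `∑_p |λ(p)|² w(p) ≤ √(π/2) s + (1/4 + ε) log C(φ) + O(1)`, `w(p) = (log p / p) exp(-(log p)² / 2 s²)`,
where `λ(p) = α_{0,p} + α_{1,p}` and `C(φ) = T²`; and the same for the symmetric square, with `(λ(p)² - 1)²` and `T⁶`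
instead. If `π_p` is not tempered then `λ(p)² ≥ 4`. We add the first inequality and `4/5` of the second one; on the left
side there is `λ² + 4/5 (λ² - 1)² = 11/16 + 4/5 (λ² - 3/8)²`, which is at least `11/16` everywhere and at least `11.2` if
`λ² ≥ 4`; now apply Mertens' theorem and choose `s = (log P) / 0.78`. The second assertion follows in the same way from
the inequality of `RamanujanProportion`, with `(λ² - 2/3)²`.
-/

set_option autoImplicit false

namespace Pool.Agent.Results.MP_fa98d2_nt.TemperedPrimesSymSq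

open Pool.Agent.TH949.RES (SphericalCuspForm)

/-- the Satake parameters and the Langlands parameters of a Maass form of level one -/
structure MaassForm (α : Nat.Primes → Fin 2 → ℂ) (μ : Fin 2 → ℂ) : Prop where
  /-- `π` is a spherical cusp form on `PGL_2` -/
  form : SphericalCuspForm α μ
  /-- the central character is trivial -/
  central : ∀ p, α p 0 * α p 1 = 1
  /-- the central character is trivial at the real place -/
  central_real : μ 0 + μ 1 = 0
  /-- the symmetric square of `π` is a spherical cusp form on `PGL_3` -/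
  symSq : SphericalCuspForm (fun p => ![α p 0 ^ 2, 1, α p 1 ^ 2]) ![2 * μ 0, 0, 2 * μ 1]
  /-- the bound of Jacquet and Shalika for the symmetric square -/
  bound : ∀ (p : Nat.Primes) i, ‖α p i‖ < ((p : ℕ) : ℝ) ^ (1 / 4 : ℝ)
  /-- the bound of Jacquet and Shalika for the symmetric square at the real place -/
  bound_real : ∀ i, |(μ i).re| < 1 / 4

/-- `π_p` is tempered -/
def TemperedAt (α : Nat.Primes → Fin 2 → ℂ) (p : Nat.Primes) : Prop := ∀ i, ‖α p i‖ = 1

open scoped Classical in
/-- the sum of `(log p) / p` over the tempered primes `p ≤ P` (a finite sum) -/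
noncomputable def temperedMass (α : Nat.Primes → Fin 2 → ℂ) (P : ℝ) : ℝ :=
  ∑' p : Nat.Primes, if ((p : ℕ) : ℝ) ≤ P ∧ TemperedAt α p then Real.log ((p : ℕ) : ℝ) / ((p : ℕ) : ℝ) else 0

theorem mass_eq (α : Nat.Primes → Fin 2 → ℂ) (P : ℝ) [DecidablePred (TemperedAt α)] :
    temperedMass α P = ∑ p ∈ (Pool.Agent.U985.UT.pf P).filter (TemperedAt α),
      Real.log ((p : ℕ) : ℝ) / ((p : ℕ) : ℝ) := by
  unfold temperedMass
  refine (tsum_eq_sum (s := (Pool.Agent.U985.UT.pf P).filter (TemperedAt α)) fun p hp => ?_).trans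
    (Finset.sum_congr rfl fun p hp => ?_)
  · refine if_neg fun h => hp ?_
    exact Finset.mem_filter.2 ⟨Pool.Agent.U985.UT.mem_pf.2 h.1, h.2⟩
  · rw [Finset.mem_filter] at hp
    exact if_pos ⟨Pool.Agent.U985.UT.mem_pf.1 hp.1, hp.2⟩

theorem toForm {α : Nat.Primes → Fin 2 → ℂ} {μ : Fin 2 → ℂ} (h : MaassForm α μ) :
    Pool.Agent.U985.UT.FormSym α μ :=
  ⟨h.form, h.central, h.central_real, h.bound, h.bound_real, h.symSq⟩

/-- **Tempered primes of Maass forms, uniformly in the form.** -/
theorem result :
    (∃ A δ : ℝ, 0 < A ∧ 0 < δ ∧ ∀ (α : Nat.Primes → Fin 2 → ℂ) (μ : Fin 2 → ℂ), MaassForm α μ →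
      ∀ P : ℝ, A * (1 + ‖μ 0 - μ 1‖) ^ (0.2195 : ℝ) ≤ P →
        P ^ δ ≤ ({p : Nat.Primes | ((p : ℕ) : ℝ) ≤ P ∧ TemperedAt α p}.ncard : ℕ)) ∧
    ∀ ε : ℝ, 0 < ε → ∃ A : ℝ, 0 < A ∧ ∀ (α : Nat.Primes → Fin 2 → ℂ) (μ : Fin 2 → ℂ), MaassForm α μ →
      ∀ P : ℝ, 1 ≤ P →
        9 / 10 * Real.log P - 33 / 100 * Real.log (1 + ‖μ 0 - μ 1‖) - ε * Real.log (P * (1 + ‖μ 0 - μ 1‖)) - A ≤
          temperedMass α P := by
  classical
  constructor
  · obtain ⟨A, δ, hA, hδ, h⟩ := Pool.Agent.U985.UT.sym_many
    refine ⟨A, δ, hA, hδ, fun α μ hf P hP => h α μ (toForm hf) P ?_⟩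
    have : (439 / 2000 : ℝ) = 0.2195 := by norm_num
    rw [this]
    exact hP
  · intro ε hε
    obtain ⟨A, hA, h⟩ := Pool.Agent.U985.UT.sym_mass2 hε
    refine ⟨A, hA, fun α μ hf P hP => ?_⟩
    rw [mass_eq]
    exact h α μ (toForm hf) P hP _ fun p hp hs => Finset.mem_filter.2 ⟨Pool.Agent.U985.UT.mem_pf.2 hp, hs⟩

end Pool.Agent.Results.MP_fa98d2_nt.TemperedPrimesSymSq
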